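import Pool.Agent.Helper59.MB.Goals1

/-!
# Packet MB-HOE (MP_49a1ce_an): Hoeffding for functions of disjoint blocks of coordinates
-/

set_option autoImplicit false

open MeasureTheory ProbabilityTheory Filter Topology Finset
open scoped NNReal

namespace Pool.Agent.Helper89.MB

open Pool.Agent.Helper59.MB

noncomputable section

/-- the word with prescribed letters at the places in `T`. -/
def ex (T : Finset ℕ) (v : T → A) : Wd := fun i => if h : i ∈ T then v ⟨i, h⟩ else fun _ => false

lemma ex_meas (T : Finset ℕ) : Measurable (ex T) := by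
  refine measurable_pi_iff.2 fun i => ?_
  unfold ex
  by_cases h : i ∈ T
  · simp only [dif_pos h]
    exact measurable_pi_apply _
  · simp only [dif_neg h]
    exact measurable_const

lemma ex_apply (T : Finset ℕ) (w : Wd) (i : ℕ) (hi : i ∈ T) :
    ex T (fun j : T => w j) i = w i := by
  unfold ex
  rw [dif_pos hi]

lemma coord_indep (m : Measure A) [IsProbabilityMeasure m] :
    iIndepFun (fun (i : ℕ) (w : Wd) => w i) (Q m) :=
  iIndepFun_infinitePi (P := fun _ : ℕ => m) (X := fun _ x => x) (fun _ => measurable_id)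

theorem sub_gauss (m : Measure A) [IsProbabilityMeasure m] (n B : ℕ) (F : ℕ → Wd → ℝ)
    (c : ℝ≥0) (hmeas : ∀ q, Measurable (F q))
    (hloc : ∀ q < n, ∀ w w' : Wd, (∀ j < B, w (B * q + j) = w' (B * q + j)) → F q w = F q w')
    (hb : ∀ q < n, ∀ w, |F q w| ≤ c) (hint : ∀ q < n, ∫ w, F q w ∂(Q m) = 0) :
    ∀ k ≤ n, HasSubgaussianMGF (fun w => ∑ q ∈ range k, F q w) ((k : ℝ≥0) * c ^ 2) (Q m) := by
  haveI : IsProbabilityMeasure (Q m) := by
    unfold Q
    infer_instance
  intro k
  induction k with
  | zero =>
    intro _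
    simp only [Finset.range_zero, Finset.sum_empty, Nat.cast_zero, zero_mul]
    exact HasSubgaussianMGF.fun_zero
  | succ k ih =>
    intro hk
    have hX := ih (by omega)
    have hY : HasSubgaussianMGF (F k) (c ^ 2) (Q m) := by
      have h1 := hasSubgaussianMGF_of_mem_Icc_of_integral_eq_zero (μ := Q m) (X := F k)
        (a := -(c : ℝ)) (b := (c : ℝ)) (hmeas k).aemeasurable
        (Filter.Eventually.of_forall fun w => abs_le.1 (hb k (by omega) w)) (hint k (by omega))
      have h2 : (‖(c : ℝ) - -(c : ℝ)‖₊ / 2) ^ 2 = c ^ 2 := by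
        congr 1
        apply NNReal.eq
        rw [NNReal.coe_div, coe_nnnorm, sub_neg_eq_add, Real.norm_of_nonneg (by positivity)]
        push_cast
        ring
      rw [h2] at h1
      exact h1
    have hind : IndepFun (fun w => ∑ q ∈ range k, F q w) (F k) (Q m) := by
      have hdis : Disjoint (Finset.range (B * k)) (Finset.Ico (B * k) (B * k + B)) := by
        rw [Finset.disjoint_left]
        intro x hx hx'
        rw [Finset.mem_range] at hx
        rw [Finset.mem_Ico] at hx'
        omega
      have h0 := (coord_indep m).indepFun_finset (Finset.range (B * k))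
        (Finset.Ico (B * k) (B * k + B)) hdis (fun i => measurable_pi_apply i)
      have hφ : Measurable (fun v : Finset.range (B * k) → A =>
          ∑ q ∈ range k, F q (ex (Finset.range (B * k)) v)) :=
        Finset.measurable_sum _ fun q _ => (hmeas q).comp (ex_meas _)
      have hψ : Measurable (fun v : Finset.Ico (B * k) (B * k + B) → A =>
          F k (ex (Finset.Ico (B * k) (B * k + B)) v)) := (hmeas k).comp (ex_meas _)
      have h1 := h0.comp hφ hψ
      have e1 : (fun w => ∑ q ∈ range k, F q w) =
          (fun v : Finset.range (B * k) → A =>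
            ∑ q ∈ range k, F q (ex (Finset.range (B * k)) v)) ∘
              (fun (w : Wd) (i : Finset.range (B * k)) => w i) := by
        funext w
        show ∑ q ∈ range k, F q w = ∑ q ∈ range k,
          F q (ex (Finset.range (B * k)) (fun i : Finset.range (B * k) => w i))
        refine Finset.sum_congr rfl fun q hq => ?_
        rw [Finset.mem_range] at hq
        refine hloc q (by omega) _ _ fun j hj => ?_
        rw [ex_apply]
        rw [Finset.mem_range]
        calc B * q + j < B * q + B := by omega
          _ = B * (q + 1) := by ring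
          _ ≤ B * k := Nat.mul_le_mul_left B hq
      have e2 : F k = (fun v : Finset.Ico (B * k) (B * k + B) → A =>
          F k (ex (Finset.Ico (B * k) (B * k + B)) v)) ∘
            (fun (w : Wd) (i : Finset.Ico (B * k) (B * k + B)) => w i) := by
        funext w
        show F k w = F k (ex (Finset.Ico (B * k) (B * k + B))
          (fun i : Finset.Ico (B * k) (B * k + B) => w i))
        refine hloc k (by omega) _ _ fun j hj => ?_
        rw [ex_apply]
        rw [Finset.mem_Ico]
        omega
      rw [e1, e2]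
      exact h1
    have h3 := hX.add_of_indepFun hY hind
    have e3 : (fun w => ∑ q ∈ range (k + 1), F q w) =
        fun w => (fun w => ∑ q ∈ range k, F q w) w + F k w := by
      funext w
      rw [Finset.sum_range_succ]
    have e4 : (((k + 1 : ℕ) : ℝ≥0) * c ^ 2) = (k : ℝ≥0) * c ^ 2 + c ^ 2 := by
      push_cast
      ring
    rw [e3, e4]
    exact h3

theorem t_HOE : S_HOE := by
  intro m _ n B F c t hn hc ht hmeas hloc hb hint
  haveI : IsProbabilityMeasure (Q m) := by
    unfold Q
    infer_instance
  obtain ⟨c', rfl⟩ : ∃ c' : ℝ≥0, (c' : ℝ) = c := ⟨Real.toNNReal c, Real.coe_toNNReal c hc.le⟩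
  have h0 := sub_gauss m n B F c' hmeas hloc hb hint n le_rfl
  have h1 := h0.measure_ge_le ht
  have h2 := h0.neg.measure_ge_le ht
  have e : -t ^ 2 / (2 * (((n : ℝ≥0) * c' ^ 2 : ℝ≥0) : ℝ)) =
      -(t ^ 2) / (2 * n * (c' : ℝ) ^ 2) := by
    rw [NNReal.coe_mul, NNReal.coe_pow, NNReal.coe_natCast, mul_assoc]
  rw [e] at h1 h2
  have hsub : {w : Wd | t ≤ |∑ q ∈ range n, F q w|} ⊆
      {w : Wd | t ≤ ∑ q ∈ range n, F q w} ∪
        {w : Wd | t ≤ (-fun w : Wd => ∑ q ∈ range n, F q w) w} := by
    intro w hw
    have hw' : t ≤ |∑ q ∈ range n, F q w| := hw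
    rcases le_abs.1 hw' with h | h
    · exact Or.inl h
    · exact Or.inr h
  calc (Q m).real {w | t ≤ |∑ q ∈ range n, F q w|}
      ≤ (Q m).real ({w : Wd | t ≤ ∑ q ∈ range n, F q w} ∪
        {w : Wd | t ≤ (-fun w : Wd => ∑ q ∈ range n, F q w) w}) := measureReal_mono hsub
    _ ≤ (Q m).real {w : Wd | t ≤ ∑ q ∈ range n, F q w} +
        (Q m).real {w : Wd | t ≤ (-fun w : Wd => ∑ q ∈ range n, F q w) w} :=
          measureReal_union_le _ _
    _ ≤ 2 * Real.exp (-(t ^ 2) / (2 * n * (c' : ℝ) ^ 2)) := by linarith

end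

end Pool.Agent.Helper89.MB
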